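import Pool.Agent.H16S.Final

/-!
# The largest uniform divisor of `S_r(n) = ∑_{k<n} (-1)^{rk} (3k+2) f_k^{(r)}`

For every `r ≥ 1` and every `n`, the number `n * 2 ^ s₂(n)` divides `S_r(n)`, where `s₂(n)` is the
sum of the binary digits of `n`; and `gcd (S_1(n), S_2(n)) = n * 2 ^ s₂(n)`, so no larger number
divides `S_r(n)` for all `r ≥ 1`.
-/

namespace Pool.Agent.Results.MP_ede29a_nt.SharpDivisor

open Finset

/-- `f_n^{(r)} = ∑_{k=0}^{n} C(n,k)^r`. -/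
def f (r n : ℕ) : ℕ := ∑ k ∈ range (n + 1), (n.choose k) ^ r

/-- `S_r(n) = ∑_{k=0}^{n-1} (-1)^{rk} (3k+2) f_k^{(r)}`. -/
def S (r n : ℕ) : ℤ := ∑ k ∈ range n, (-1) ^ (r * k) * (3 * (k : ℤ) + 2) * (f r k : ℤ)

/-- `n * 2 ^ s₂(n)` divides `S_r(n)` for all `r ≥ 1`, it equals `gcd (S_1(n), S_2(n))`, and, for
`n ≥ 1`, it is a multiple of `2 n`. -/
theorem result :
    (∀ r n : ℕ, 1 ≤ r → ((n : ℤ) * 2 ^ (Nat.digits 2 n).sum) ∣ S r n) ∧
    (∀ n : ℕ, Int.gcd (S 1 n) (S 2 n) = n * 2 ^ (Nat.digits 2 n).sum) ∧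
    (∀ n : ℕ, 1 ≤ n → 2 * n ∣ n * 2 ^ (Nat.digits 2 n).sum) := by
  refine ⟨fun r n hr => Pool.Agent.H16S.main_dvd hr n, fun n => Pool.Agent.H16S.gcd_eq n,
    fun n hn => ?_⟩
  have h : (Nat.digits 2 n).sum ≠ 0 := by
    intro h0
    have h1 := Pool.Agent.H16S.padic_central n
    have h2 : 2 ∣ (2 * n).choose n := by
      have := Nat.two_dvd_centralBinom_of_one_le hn
      simpa [Nat.centralBinom] using this
    have h3 : 1 ≤ padicValNat 2 ((2 * n).choose n) :=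
      (padicValNat_dvd_iff_le (Nat.choose_pos (by omega)).ne').mp (by simpa using h2)
    rw [h1] at h3
    have h4 : Pool.Agent.H16S.s2 n = 0 := h0
    omega
  rw [mul_comm 2 n]
  exact Nat.mul_dvd_mul_left _ (dvd_pow_self 2 h)

end Pool.Agent.Results.MP_ede29a_nt.SharpDivisor
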